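import Pool.Agent.V8H22.TP.R

set_option autoImplicit false

/-!
# Ten general points: conclusion
-/

namespace Pool.Agent.V8H22.TP

open MvPolynomial Pool.Agent.W609 Pool.Agent.W609.CR Pool.Agent.TH167 Pool.Agent.TH167.SH Pool.Agent.N108.ZZ

/-- The Harbourne-Hirschowitz conjecture for the class `(d; w)`, for all points outside of a hypersurface. -/
def HH (d : ℕ) (w : Fin 10 → ℕ) : Prop :=
  ∃ F : MvPolynomial (Fin 10 × Fin 2) ℂ, F ≠ 0 ∧ ∀ P : Fin 10 → Fin 2 → ℂ,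
    MvPolynomial.eval (fun ij : Fin 10 × Fin 2 => P ij.1 ij.2) F ≠ 0 →
      (SHDefs.Special P d w ↔ SHDefs.MinusOneSpecial P d w)

theorem hh_of_dim {d : ℕ} {w : Fin 10 → ℕ} (h : ∀ (K : Type) [Field K] [CharZero K] (P : Fin 10 → Fin 2 → K),
    AlgebraicIndependent ℚ (fun ij : Fin 10 × Fin 2 => P ij.1 ij.2) →
      (Module.finrank K ↥(VS (fun j => aff (P j)) w d) : ℤ) = max 0 (chi d w)) : HH d w := by
  obtain ⟨g, F, hF, hg⟩ := dim_gen w d
  obtain ⟨K0, i1, i2, P0, hP0⟩ := exists_generic 10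
  have h1 := h K0 P0 hP0
  rw [hg K0 P0 (by
    have := evP_ne hP0 hF
    rwa [evP_apply] at this)] at h1
  refine ⟨F.map (algebraMap ℚ ℂ), map_ne hF, fun P hP => ?_⟩
  rw [evP_eval, evP_apply] at hP
  have h2 : ¬ SHDefs.Special P d w := by
    rw [special_conv]
    intro h3
    exact h3 (by rw [hg ℂ P hP, h1])
  constructor
  · intro h3
    exact absurd h3 h2
  · intro h3
    exfalso
    apply h2
    rw [mspecial_conv] at h3
    rw [special_conv]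
    exact h3.special

theorem hh_of_G {d : ℕ} {w : Fin 10 → ℕ} (h : G d w) : HH d w := by
  refine hh_of_dim fun K _ _ P hP => ?_
  have h1 := h K P hP
  rw [max_eq_right (by rw [← h1]; exact Int.natCast_nonneg _)]
  exact h1

theorem hh_of_not {d : ℕ} {w : Fin 10 → ℕ} (h : ¬ (Cone d w ∧ 6 ≤ sm w - 3 * d)) : HH d w := by
  obtain ⟨F, hF, hF'⟩ := core2 d w
  refine ⟨F, hF, fun P hP => ⟨fun h1 => ?_, (hF' P hP).1⟩⟩
  rcases (hF' P hP).2 h1 with h2 | h2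
  · exact h2
  · exact absurd h2 h

theorem hh_nagata {d : ℕ} {w : Fin 10 → ℕ} (h : 10 * (d : ℤ) ^ 2 < sm w ^ 2) : HH d w := by
  refine hh_of_dim fun K _ _ P hP => ?_
  obtain ⟨F, hF, hF'⟩ := Pool.Agent.TH885.NW.exp_cut2 (n := 10) le_rfl w
  refine expDim_of (hF' P (by
    have := evP_ne hP hF
    rwa [evP_apply] at this) d (Or.inl ?_))
  have h3 : (∑ i, (w i : ℝ)) = ((sm w : ℤ) : ℝ) := by
    unfold sm
    push_cast
    rfl
  rw [h3]
  have h0 : 0 ≤ sm w := Finset.sum_nonneg fun i _ => Int.natCast_nonneg _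
  have h4 : 10 * (d : ℝ) ^ 2 < ((sm w : ℤ) : ℝ) ^ 2 := by exact_mod_cast h
  have h7 : (√((10 : ℕ) : ℝ) * (d : ℝ)) ^ 2 = 10 * (d : ℝ) ^ 2 := by
    rw [mul_pow, Real.sq_sqrt (by positivity)]
    norm_num
  rw [← h7] at h4
  exact lt_of_pow_lt_pow_left₀ 2 (by exact_mod_cast h0) h4

/-- The possible exceptions. -/
theorem main {d : ℕ} {w : Fin 10 → ℕ} (h : ¬ HH d w) : Cone d w ∧ 6 ≤ sm w - 3 * d ∧ sm w ^ 2 ≤ 10 * (d : ℤ) ^ 2 ∧
    ∀ t : ℕ, (t : ℤ) ≤ d - 3 * (sm w - 3 * d) → 10 * (sm w - 3 * d + 1) ^ 2 < (t : ℤ) ^ 2 →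
      10 * ((d : ℤ) ^ 2 - sq w + (sm w - 3 * d) ^ 2) + t ^ 2 < 2 * (d - 3 * (sm w - 3 * d)) * t + 25 := by
  have h1 : Cone d w ∧ 6 ≤ sm w - 3 * d := by
    by_contra hcon
    exact h (hh_of_not hcon)
  refine ⟨h1.1, h1.2, ?_, ?_⟩
  · by_contra hcon
    push Not at hcon
    exact h (hh_nagata hcon)
  · intro t h2 h3
    by_contra hcon
    push Not at hcon
    exact h (hh_of_G (region (by linarith [h1.2]) h2 h3 hcon))

theorem cauchy (w : Fin 10 → ℕ) : sm w ^ 2 ≤ 10 * sq w := by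
  have h1 := sq_sum_le_card_mul_sum_sq (s := Finset.univ) (f := fun i : Fin 10 => (w i : ℤ))
  rw [Finset.card_univ, Fintype.card_fin] at h1
  unfold sm sq
  exact_mod_cast h1

/-- The possible exceptions have `D ^ 2 < (K D) (H D)`. -/
theorem self_lt {d : ℕ} {w : Fin 10 → ℕ} (h : ¬ HH d w) : (d : ℤ) ^ 2 - sq w < (sm w - 3 * d) * d := by
  by_contra hcon
  push Not at hcon
  obtain ⟨hc, h6, -, ht⟩ := main h
  have hcs := cauchy w
  obtain ⟨κ, hκ⟩ : ∃ κ : ℕ, (κ : ℤ) = sm w - 3 * d := ⟨(sm w - 3 * d).toNat, by omega⟩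
  rw [← hκ] at hcon h6 ht
  have hsm : sm w = 3 * d + κ := by rw [hκ]; ring
  rw [hsm] at hcs
  have hd0 : (0 : ℤ) ≤ d := Int.natCast_nonneg d
  have h16 : 16 * (κ : ℤ) ≤ d := by
    by_contra h7
    push Not at h7
    nlinarith
  obtain ⟨s, hs⟩ : ∃ s, s = Nat.sqrt (10 * (κ + 1) ^ 2) := ⟨_, rfl⟩
  have hs1 : s * s ≤ 10 * (κ + 1) ^ 2 := by rw [hs]; exact Nat.sqrt_le _
  have hs2 : 10 * (κ + 1) ^ 2 < (s + 1) * (s + 1) := by rw [hs]; exact Nat.lt_succ_sqrt _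
  have hs3 : (s : ℤ) * s ≤ 10 * ((κ : ℤ) + 1) ^ 2 := by exact_mod_cast hs1
  have hs4 : 10 * ((κ : ℤ) + 1) ^ 2 < ((s : ℤ) + 1) * (s + 1) := by exact_mod_cast hs2
  have hs5 : 5 * (s : ℤ) ≤ 16 * (κ + 1) := by
    by_contra h7
    push Not at h7
    nlinarith
  have h7 := ht (s + 1) (by push_cast; linarith) (by push_cast; nlinarith)
  push_cast at h7
  have h8 : 10 * ((s : ℤ) + 1) ≤ 39 * κ := by linarith
  have h9 : 0 ≤ (d : ℤ) - 3 * κ := by linarith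
  nlinarith [mul_le_mul_of_nonneg_right h8 h9, sq_nonneg ((s : ℤ) + 1), mul_nonneg hd0 (by linarith : (0 : ℤ) ≤ κ)]

/-- Vectors far from the diagonal, and vectors with a small sum, have no exceptions. -/
theorem all_deg {d : ℕ} {w : Fin 10 → ℕ} (h : ¬ HH d w) : 117 ≤ sm w ∧ 9 * sq w + 12 * sm w ≤ sm w ^ 2 + 360 := by
  obtain ⟨hc, h6, hn, -⟩ := main h
  refine ⟨?_, (angle hc h6).2⟩
  by_contra hcon
  push Not at hcon
  have hd : d ≤ 36 := by omega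
  have hd' : (d : ℤ) ≤ 36 := by exact_mod_cast hd
  have hsm : 3 * (d : ℤ) + 6 ≤ sm w := by linarith
  have hd0 : (0 : ℤ) ≤ d := Int.natCast_nonneg d
  nlinarith

end Pool.Agent.V8H22.TP
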