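import Pool.Agent.TH167.SH.Defs

set_option autoImplicit false

/-!
# Ten points: the light cone in the orthogonal complement of the canonical class

For a class `(d; w)` on the plane blown up at ten points let `κ = ∑ w i - 3 d` be its intersection number with the
canonical class `K`, `K ^ 2 = -1`. `Cone d w` says that the projection of the class to the orthogonal complement of `K`
lies in the closed forward light cone. It holds for all standard classes, it is invariant under quadratic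
transformations, and if it holds then the class meets every `(-1)`-class in at least `κ` points.
-/

namespace Pool.Agent.V8H22.TP

open Finset Pool.Agent.TH167.SHDefs

/-- The sum of the multiplicities. -/
def sm {s : ℕ} (w : Fin s → ℕ) : ℤ := ∑ i, (w i : ℤ)

/-- The sum of the squares of the multiplicities. -/
def sq {s : ℕ} (w : Fin s → ℕ) : ℤ := ∑ i, (w i : ℤ) ^ 2

/-- The projection of the class to the orthogonal complement of `K` lies in the closed forward light cone. -/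
def Cone (d : ℕ) (w : Fin 10 → ℕ) : Prop :=
  0 ≤ (d : ℤ) - 3 * (sm w - 3 * d) ∧ 0 ≤ (d : ℤ) ^ 2 - sq w + (sm w - 3 * d) ^ 2

theorem sum_three {s : ℕ} {i j k : Fin s} (hij : i ≠ j) (hik : i ≠ k) (hjk : j ≠ k) (f g : Fin s → ℤ)
    (h : ∀ l, l ≠ i → l ≠ j → l ≠ k → f l = g l) :
    ∑ l, f l = ∑ l, g l + (f i - g i) + (f j - g j) + (f k - g k) := by
  have h1 : ∑ l ∈ ({i, j, k} : Finset (Fin s)), (f l - g l) = ∑ l, (f l - g l) := by
    refine sum_subset (subset_univ _) fun l _ hl => ?_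
    simp only [mem_insert, mem_singleton, not_or] at hl
    rw [h l hl.1 hl.2.1 hl.2.2, sub_self]
  rw [sum_insert (by simp [hij, hik]), sum_insert (by simp [hjk]), sum_singleton, sum_sub_distrib] at h1
  linarith

/-- The invariants of a quadratic transformation. -/
theorem quad {s : ℕ} {a b : ℕ × (Fin s → ℕ)} (h : Quadratic a b) :
    sm b.2 - 3 * b.1 = sm a.2 - 3 * a.1 ∧ (b.1 : ℤ) ^ 2 - sq b.2 = (a.1 : ℤ) ^ 2 - sq a.2 ∧
      ∃ i j k : Fin s, i ≠ j ∧ i ≠ k ∧ j ≠ k ∧ (a.1 : ℤ) = 2 * b.1 - b.2 i - b.2 j - b.2 k := by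
  obtain ⟨i, j, k, hij, hik, hjk, h0, h1, h2, h3, h4⟩ := h
  have e1 := sum_three hij hik hjk (fun l => (b.2 l : ℤ)) (fun l => (a.2 l : ℤ))
    (fun l hi hj hk => by rw [h4 l hi hj hk])
  have e2 := sum_three hij hik hjk (fun l => (b.2 l : ℤ) ^ 2) (fun l => (a.2 l : ℤ) ^ 2)
    (fun l hi hj hk => by rw [h4 l hi hj hk])
  refine ⟨?_, ?_, i, j, k, hij, hik, hjk, ?_⟩
  · unfold sm
    rw [e1, h0, h1, h2, h3]
    ring
  · unfold sq
    rw [e2, h0, h1, h2, h3]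
    ring
  · rw [h0, h1, h2, h3]
    ring

/-- The square of the projection. -/
theorem proj (d κ : ℤ) (w : Fin 10 → ℕ) (hκ : κ = sm w - 3 * d) :
    (d - 3 * κ) ^ 2 - ∑ l, ((w l : ℤ) - κ) ^ 2 = d ^ 2 - sq w + κ ^ 2 := by
  have h1 : ∑ l, ((w l : ℤ) - κ) ^ 2 = sq w - 2 * κ * sm w + 10 * κ ^ 2 := by
    unfold sq sm
    rw [mul_sum, ← sum_sub_distrib]
    have : (10 : ℤ) * κ ^ 2 = ∑ _l : Fin 10, κ ^ 2 := by simp
    rw [this, ← sum_add_distrib]
    exact sum_congr rfl fun l _ => by ring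
  rw [h1]
  have h2 : sm w = κ + 3 * d := by rw [hκ]; ring
  rw [h2]
  ring

theorem three_le {i j k : Fin 10} (hij : i ≠ j) (hik : i ≠ k) (hjk : j ≠ k) (f : Fin 10 → ℤ) :
    f i ^ 2 + f j ^ 2 + f k ^ 2 ≤ ∑ l, f l ^ 2 := by
  have h1 : ∑ l ∈ ({i, j, k} : Finset (Fin 10)), f l ^ 2 ≤ ∑ l, f l ^ 2 :=
    sum_le_sum_of_subset_of_nonneg (subset_univ _) fun l _ _ => sq_nonneg _
  rw [sum_insert (by simp [hij, hik]), sum_insert (by simp [hjk]), sum_singleton] at h1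
  linarith

theorem cone_step {a b : ℕ × (Fin 10 → ℕ)} (h : Quadratic a b) (hb : Cone b.1 b.2) : Cone a.1 a.2 := by
  obtain ⟨h1, h2, i, j, k, hij, hik, hjk, h3⟩ := quad h
  obtain ⟨c1, c2⟩ := hb
  rw [h1] at c1 c2
  have h4 := proj b.1 (sm a.2 - 3 * a.1) b.2 h1.symm
  set κ : ℤ := sm a.2 - 3 * a.1 with hκ
  have h5 := three_le hij hik hjk (fun l => (b.2 l : ℤ) - κ)
  have h6 : ((b.2 i : ℤ) - κ + (b.2 j - κ) + (b.2 k - κ)) ^ 2 ≤ (2 * ((b.1 : ℤ) - 3 * κ)) ^ 2 := by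
    nlinarith [sq_nonneg (((b.2 i : ℤ) - κ) - (b.2 j - κ)), sq_nonneg (((b.2 i : ℤ) - κ) - (b.2 k - κ)),
      sq_nonneg (((b.2 j : ℤ) - κ) - (b.2 k - κ)), sq_nonneg ((b.1 : ℤ) - 3 * κ)]
  have h7 := (abs_le.1 (abs_le_of_sq_le_sq h6 (by linarith))).2
  refine ⟨?_, ?_⟩
  · show 0 ≤ (a.1 : ℤ) - 3 * κ
    rw [h3]
    linarith
  · show 0 ≤ (a.1 : ℤ) ^ 2 - sq a.2 + κ ^ 2
    rw [← h2]
    exact c2

theorem cone_chain {a b : ℕ × (Fin 10 → ℕ)} (h : Relation.ReflTransGen Quadratic a b) (hb : Cone b.1 b.2) :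
    Cone a.1 a.2 := by
  induction h using Relation.ReflTransGen.head_induction_on with
  | refl => exact hb
  | head h1 _ ih => exact cone_step h1 ih

theorem kappa_chain {s : ℕ} {a b : ℕ × (Fin s → ℕ)} (h : Relation.ReflTransGen Quadratic a b) :
    sm b.2 - 3 * b.1 = sm a.2 - 3 * a.1 := by
  induction h with
  | refl => rfl
  | tail _ h1 ih => rw [(quad h1).1, ih]

/-- The class meets every `(-1)`-class in at least `κ` points. -/
theorem meets {d : ℕ} {w : Fin 10 → ℕ} (h : Cone d w) {e : ℕ} {c : Fin 10 → ℕ} (h1 : inter e c e c = -1)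
    (h2 : interK e c = -1) : sm w - 3 * d ≤ inter d w e c := by
  obtain ⟨c1, c2⟩ := h
  have h4 := proj d (sm w - 3 * d) w rfl
  set κ : ℤ := sm w - 3 * d with hκ
  have e1 : ∑ i, (c i : ℤ) = 3 * e - 1 := by
    unfold interK at h2
    linarith
  have e2 : ∑ i, (c i : ℤ) * c i = (e : ℤ) ^ 2 + 1 := by
    unfold inter at h1
    linarith
  have e3 : ∑ i, ((c i : ℤ) + 1) ^ 2 = ((e : ℤ) + 3) ^ 2 := by
    have : ∑ i, ((c i : ℤ) + 1) ^ 2 = ∑ i, (c i : ℤ) * c i + 2 * ∑ i, (c i : ℤ) + 10 := by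
      rw [mul_sum, ← sum_add_distrib]
      have h10 : (10 : ℤ) = ∑ _l : Fin 10, 1 := by simp
      rw [h10, ← sum_add_distrib]
      exact sum_congr rfl fun l _ => by ring
    rw [this, e1, e2]
    ring
  have h5 := sum_mul_sq_le_sq_mul_sq univ (fun l => (w l : ℤ) - κ) (fun l => (c l : ℤ) + 1)
  rw [e3] at h5
  have h6 : (∑ l, ((w l : ℤ) - κ) * ((c l : ℤ) + 1)) ^ 2 ≤ (((d : ℤ) - 3 * κ) * ((e : ℤ) + 3)) ^ 2 := by
    rw [mul_pow]
    refine h5.trans (mul_le_mul_of_nonneg_right ?_ (sq_nonneg _))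
    linarith
  have h7 := (abs_le.1 (abs_le_of_sq_le_sq h6 (mul_nonneg c1 (by positivity)))).2
  have e4 : ∑ l, ((w l : ℤ) - κ) * ((c l : ℤ) + 1) =
      ∑ l, (w l : ℤ) * c l + sm w - κ * (3 * e - 1) - 10 * κ := by
    rw [← e1, mul_sum]
    unfold sm
    have h10 : (10 : ℤ) * κ = ∑ _l : Fin 10, κ := by simp
    rw [h10, ← sum_add_distrib, ← sum_sub_distrib, ← sum_sub_distrib]
    exact sum_congr rfl fun l _ => by ring
  rw [e4] at h7
  unfold inter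
  have h8 : sm w = κ + 3 * d := by rw [hκ]; ring
  rw [h8] at h7
  linarith

theorem sum_ten (f : Fin 10 → ℤ) :
    ∑ i, f i = f 0 + f 1 + f 2 + f 3 + f 4 + f 5 + f 6 + f 7 + f 8 + f 9 := by
  rw [Fin.sum_univ_castSucc, Fin.sum_univ_castSucc, Fin.sum_univ_eight]
  rfl

/-- The case of increasing multiplicities. -/
theorem cone_mono {d : ℕ} {v : Fin 10 → ℕ} (hv : Monotone v) (h : v 7 + v 8 + v 9 ≤ d) :
    0 ≤ (d : ℤ) ^ 2 - sq v + (sm v - 3 * d) ^ 2 := by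
  obtain ⟨a1, h1⟩ := Nat.exists_eq_add_of_le (hv (show (0 : Fin 10) ≤ 1 by decide))
  obtain ⟨a2, h2⟩ := Nat.exists_eq_add_of_le (hv (show (1 : Fin 10) ≤ 2 by decide))
  obtain ⟨a3, h3⟩ := Nat.exists_eq_add_of_le (hv (show (2 : Fin 10) ≤ 3 by decide))
  obtain ⟨a4, h4⟩ := Nat.exists_eq_add_of_le (hv (show (3 : Fin 10) ≤ 4 by decide))
  obtain ⟨a5, h5⟩ := Nat.exists_eq_add_of_le (hv (show (4 : Fin 10) ≤ 5 by decide))
  obtain ⟨a6, h6⟩ := Nat.exists_eq_add_of_le (hv (show (5 : Fin 10) ≤ 6 by decide))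
  obtain ⟨a7, h7⟩ := Nat.exists_eq_add_of_le (hv (show (6 : Fin 10) ≤ 7 by decide))
  obtain ⟨a8, h8⟩ := Nat.exists_eq_add_of_le (hv (show (7 : Fin 10) ≤ 8 by decide))
  obtain ⟨a9, h9⟩ := Nat.exists_eq_add_of_le (hv (show (8 : Fin 10) ≤ 9 by decide))
  obtain ⟨t, ht⟩ := Nat.exists_eq_add_of_le h
  have g1 : (v 1 : ℤ) = v 0 + a1 := by exact_mod_cast h1
  have g2 : (v 2 : ℤ) = v 1 + a2 := by exact_mod_cast h2
  have g3 : (v 3 : ℤ) = v 2 + a3 := by exact_mod_cast h3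
  have g4 : (v 4 : ℤ) = v 3 + a4 := by exact_mod_cast h4
  have g5 : (v 5 : ℤ) = v 4 + a5 := by exact_mod_cast h5
  have g6 : (v 6 : ℤ) = v 5 + a6 := by exact_mod_cast h6
  have g7 : (v 7 : ℤ) = v 6 + a7 := by exact_mod_cast h7
  have g8 : (v 8 : ℤ) = v 7 + a8 := by exact_mod_cast h8
  have g9 : (v 9 : ℤ) = v 8 + a9 := by exact_mod_cast h9
  have gt : (d : ℤ) = v 7 + v 8 + v 9 + t := by exact_mod_cast ht
  unfold sq sm
  rw [sum_ten, sum_ten]
  have key : (d : ℤ) ^ 2 - ((v 0 : ℤ) ^ 2 + (v 1 : ℤ) ^ 2 + (v 2 : ℤ) ^ 2 + (v 3 : ℤ) ^ 2 + (v 4 : ℤ) ^ 2 + (v 5 : ℤ) ^ 2 + (v 6 : ℤ) ^ 2 + (v 7 : ℤ) ^ 2 + (v 8 : ℤ) ^ 2 + (v 9 : ℤ) ^ 2) +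
      ((v 0 : ℤ) + (v 1 : ℤ) + (v 2 : ℤ) + (v 3 : ℤ) + (v 4 : ℤ) + (v 5 : ℤ) + (v 6 : ℤ) + (v 7 : ℤ) + (v 8 : ℤ) + (v 9 : ℤ) - 3 * d) ^ 2 =
      a1 * (2 * a2 + 4 * a3 + 6 * a4 + 8 * a5 + 10 * a6 + 12 * a7 + 8 * a8 + 4 * a9 + 6 * t) +
      a2 * (2 * a2 + 8 * a3 + 12 * a4 + 16 * a5 + 20 * a6 + 24 * a7 + 16 * a8 + 8 * a9 + 12 * t) +
      a3 * (6 * a3 + 18 * a4 + 24 * a5 + 30 * a6 + 36 * a7 + 24 * a8 + 12 * a9 + 18 * t) +
      a4 * (12 * a4 + 32 * a5 + 40 * a6 + 48 * a7 + 32 * a8 + 16 * a9 + 24 * t) +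
      a5 * (20 * a5 + 50 * a6 + 60 * a7 + 40 * a8 + 20 * a9 + 30 * t) +
      a6 * (30 * a6 + 72 * a7 + 48 * a8 + 24 * a9 + 36 * t) +
      a7 * (42 * a7 + 56 * a8 + 28 * a9 + 42 * t) +
      a8 * (18 * a8 + 18 * a9 + 28 * t) +
      a9 * (4 * a9 + 14 * t) +
      t * (10 * t) := by
    rw [gt, g9, g8, g7, g6, g5, g4, g3, g2, g1]
    ring
  rw [key]
  positivity

/-- Standard classes lie in the cone. -/
theorem cone_std {d : ℕ} {w : Fin 10 → ℕ} (h : ∀ i j k : Fin 10, i ≠ j → i ≠ k → j ≠ k → w i + w j + w k ≤ d) :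
    Cone d w := by
  constructor
  · have key : ∀ i j k : Fin 10, i ≠ j → i ≠ k → j ≠ k → (w i : ℤ) + w j + w k ≤ d := by
      intro i j k a b c
      exact_mod_cast h i j k a b c
    unfold sm
    rw [sum_ten]
    have k0 := key 0 1 2 (by decide) (by decide) (by decide)
    have k1 := key 1 2 3 (by decide) (by decide) (by decide)
    have k2 := key 2 3 4 (by decide) (by decide) (by decide)
    have k3 := key 3 4 5 (by decide) (by decide) (by decide)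
    have k4 := key 4 5 6 (by decide) (by decide) (by decide)
    have k5 := key 5 6 7 (by decide) (by decide) (by decide)
    have k6 := key 6 7 8 (by decide) (by decide) (by decide)
    have k7 := key 7 8 9 (by decide) (by decide) (by decide)
    have k8 := key 8 9 0 (by decide) (by decide) (by decide)
    have k9 := key 9 0 1 (by decide) (by decide) (by decide)
    linarith
  · have hm : Monotone (w ∘ Tuple.sort w) := Tuple.monotone_sort w
    have inj : ∀ i j : Fin 10, i ≠ j → Tuple.sort w i ≠ Tuple.sort w j :=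
      fun i j hij hh => hij ((Tuple.sort w).injective hh)
    have h1 := cone_mono (d := d) hm (by
      show w (Tuple.sort w 7) + w (Tuple.sort w 8) + w (Tuple.sort w 9) ≤ d
      exact h _ _ _ (inj _ _ (by decide)) (inj _ _ (by decide)) (inj _ _ (by decide)))
    have e1 : sq (w ∘ Tuple.sort w) = sq w := by
      unfold sq
      exact Equiv.sum_comp (Tuple.sort w) (fun i => (w i : ℤ) ^ 2)
    have e2 : sm (w ∘ Tuple.sort w) = sm w := by
      unfold sm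
      exact Equiv.sum_comp (Tuple.sort w) (fun i => (w i : ℤ))
    rw [e1, e2] at h1
    exact h1

/-- If `κ ≥ 6` and the class lies in the cone, then its multiplicity vector is close to the diagonal. -/
theorem angle {d : ℕ} {w : Fin 10 → ℕ} (h : Cone d w) (h6 : 6 ≤ sm w - 3 * d) :
    60 ≤ sm w ∧ 9 * sq w + 12 * sm w ≤ sm w ^ 2 + 360 := by
  obtain ⟨c1, c2⟩ := h
  obtain ⟨κ, hκ⟩ : ∃ κ : ℤ, κ = sm w - 3 * d := ⟨_, rfl⟩
  rw [← hκ] at c1 c2 h6
  have h8 : sm w = κ + 3 * d := by rw [hκ]; ring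
  refine ⟨by linarith, ?_⟩
  rw [h8]
  nlinarith [mul_nonneg c1 (by linarith : (0 : ℤ) ≤ κ - 6), mul_self_nonneg (κ - 6)]

end Pool.Agent.V8H22.TP
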