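import Pool.Agent.V8H22.TP.A
import Pool.Agent.N108.ZZ.HH

set_option autoImplicit false

namespace Pool.Agent.V8H22.TP

open Finset Pool.Agent.TH167.SHDefs

theorem core (d : ℕ) (w : Fin 10 → ℕ) :
    ∃ F : MvPolynomial (Fin 10 × Fin 2) ℂ, F ≠ 0 ∧ ∀ P : Fin 10 → Fin 2 → ℂ,
      MvPolynomial.eval (fun ij : Fin 10 × Fin 2 => P ij.1 ij.2) F ≠ 0 →
        (MinusOneSpecial P d w → Special P d w) ∧
        (Special P d w → MinusOneSpecial P d w ∨
          ∃ (d1 : ℕ) (w1 : Fin 10 → ℕ), Relation.ReflTransGen Quadratic (d, w) (d1, w1) ∧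
            (∀ i j k, i ≠ j → i ≠ k → j ≠ k → w1 i + w1 j + w1 k ≤ d1) ∧
            Special P d1 w1 ∧ dimL P d1 w1 = dimL P d w ∧ 6 ≤ sm w1 - 3 * d1) := by
  obtain ⟨F, hF, hF'⟩ := Pool.Agent.N108.ZZ.hh_zz (r := 6) d w
  refine ⟨F, hF, fun P hP => ⟨fun h => ?_, fun hs => ?_⟩⟩
  · rw [Pool.Agent.TH167.SH.mspecial_conv] at h
    rw [Pool.Agent.TH167.SH.special_conv]
    exact h.special
  · rcases hF' P hP hs with h | ⟨d', w', k, C, e, u, N, d1, w1, h1, h2, h3, h4, h5, h6, h7⟩
    · exact Or.inl h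
    · right
      have hk1 : 6 ≤ sm w1 - 3 * d1 := by
        have h8 : ∑ i, (if 2 ≤ w1 i then w1 i else 0) ≤ ∑ i, w1 i :=
          Finset.sum_le_sum fun i _ => by split_ifs <;> omega
        have h9 : ((3 * d1 + 6 : ℕ) : ℤ) ≤ ((∑ i, w1 i : ℕ) : ℤ) := by exact_mod_cast h7.trans h8
        push_cast at h9
        unfold sm
        linarith
      have hc1 : Cone d1 w1 := cone_std h4
      have hc' : Cone d' w' := cone_chain h3 hc1
      have hk' : sm w1 - 3 * d1 = sm w' - 3 * d' := kappa_chain h3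
      have hk0 : k = 0 := by
        rcases Nat.eq_zero_or_pos k with h | h
        · exact h
        · exfalso
          have c1 := h1.curve ⟨0, h⟩
          have c2 := meets hc' c1.self c1.canonical
          rw [h1.orthogonal ⟨0, h⟩, ← hk'] at c2
          linarith
      subst hk0
      have hd : d = d' := by
        have := h1.degree
        simpa using this
      have hw : w = w' := by
        funext i
        have := h1.mult i
        simpa using this
      subst hd
      subst hw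
      exact ⟨d1, w1, h3, h4, h5, h6, hk1⟩

/-- A special class which is not `(-1)`-special lies in the cone and meets `K` in at least six points. -/
theorem core2 (d : ℕ) (w : Fin 10 → ℕ) :
    ∃ F : MvPolynomial (Fin 10 × Fin 2) ℂ, F ≠ 0 ∧ ∀ P : Fin 10 → Fin 2 → ℂ,
      MvPolynomial.eval (fun ij : Fin 10 × Fin 2 => P ij.1 ij.2) F ≠ 0 →
        (MinusOneSpecial P d w → Special P d w) ∧
        (Special P d w → MinusOneSpecial P d w ∨ (Cone d w ∧ 6 ≤ sm w - 3 * d)) := by
  obtain ⟨F, hF, hF'⟩ := core d w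
  refine ⟨F, hF, fun P hP => ⟨(hF' P hP).1, fun hs => ?_⟩⟩
  rcases (hF' P hP).2 hs with h | ⟨d1, w1, h1, h2, -, -, h3⟩
  · exact Or.inl h
  · right
    refine ⟨cone_chain h1 (cone_std h2), ?_⟩
    rw [← kappa_chain h1]
    exact h3

end Pool.Agent.V8H22.TP
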