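import Pool.Agent.V8H22.TP.A

set_option autoImplicit false

/-!
# Numerical lemmas about vectors orthogonal to the canonical class
-/

namespace Pool.Agent.V8H22.TP

open Finset

theorem sum_erase_sq (x : Fin 10 → ℤ) (k : Fin 10) :
    (∑ i, x i - x k) ^ 2 ≤ 9 * (∑ i, x i ^ 2 - x k ^ 2) := by
  have h1 := sq_sum_le_card_mul_sum_sq (s := univ.erase k) (f := x)
  rw [card_erase_of_mem (mem_univ k), card_univ, Fintype.card_fin] at h1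
  have h2 := add_sum_erase univ x (mem_univ k)
  have h3 := add_sum_erase univ (fun i => x i ^ 2) (mem_univ k)
  have h4 : ∑ i ∈ univ.erase k, x i = ∑ i, x i - x k := by rw [← h2]; ring
  have h5 : ∑ i ∈ univ.erase k, x i ^ 2 = ∑ i, x i ^ 2 - x k ^ 2 := by rw [← h3]; ring
  rw [h4, h5] at h1
  exact_mod_cast h1

theorem nonneg_of {x : Fin 10 → ℤ} {δ : ℤ} (h1 : ∑ i, x i = 3 * δ) (h2 : ∑ i, x i ^ 2 ≤ δ ^ 2) (h3 : 0 ≤ δ)
    (k : Fin 10) : 0 ≤ x k := by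
  have h4 := sum_erase_sq x k
  rw [h1] at h4
  by_contra hcon
  push Not at hcon
  nlinarith [mul_nonneg h3 (by linarith : 0 ≤ -x k)]

theorem pos_of {x : Fin 10 → ℤ} {δ : ℤ} (h1 : ∑ i, x i = 3 * δ) (h2 : ∑ i, x i ^ 2 < δ ^ 2) (h3 : 0 ≤ δ)
    (k : Fin 10) : 0 < x k := by
  have h4 := sum_erase_sq x k
  rw [h1] at h4
  by_contra hcon
  push Not at hcon
  nlinarith [mul_nonneg h3 (by linarith : 0 ≤ -x k)]

theorem three_sum {x : Fin 10 → ℤ} {n : ℤ} (h : ∑ i, x i ^ 2 ≤ n ^ 2) (h0 : 0 ≤ n) {i j k : Fin 10} (hij : i ≠ j)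
    (hik : i ≠ k) (hjk : j ≠ k) : x i + x j + x k ≤ 2 * n := by
  have h1 := three_le hij hik hjk x
  refine (abs_le.1 (abs_le_of_sq_le_sq ?_ (by linarith))).2
  nlinarith [sq_nonneg (x i - x j), sq_nonneg (x i - x k), sq_nonneg (x j - x k)]

/-- The case of increasing coordinates. -/
theorem mono_case {v : Fin 10 → ℤ} {n : ℤ} (hv : Monotone v) (h1 : ∑ i, v i = 3 * n) (h0 : 0 < n)
    (h : v 7 + v 8 + v 9 ≤ n) : 3 ≤ n ∧ 2 * v 0 ≤ n ^ 2 - ∑ i, v i ^ 2 := by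
  obtain ⟨a1, h11⟩ := Int.eq_ofNat_of_zero_le (sub_nonneg.2 (hv (show (0 : Fin 10) ≤ 1 by decide)))
  obtain ⟨a2, h12⟩ := Int.eq_ofNat_of_zero_le (sub_nonneg.2 (hv (show (1 : Fin 10) ≤ 2 by decide)))
  obtain ⟨a3, h13⟩ := Int.eq_ofNat_of_zero_le (sub_nonneg.2 (hv (show (2 : Fin 10) ≤ 3 by decide)))
  obtain ⟨a4, h14⟩ := Int.eq_ofNat_of_zero_le (sub_nonneg.2 (hv (show (3 : Fin 10) ≤ 4 by decide)))
  obtain ⟨a5, h15⟩ := Int.eq_ofNat_of_zero_le (sub_nonneg.2 (hv (show (4 : Fin 10) ≤ 5 by decide)))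
  obtain ⟨a6, h16⟩ := Int.eq_ofNat_of_zero_le (sub_nonneg.2 (hv (show (5 : Fin 10) ≤ 6 by decide)))
  obtain ⟨a7, h17⟩ := Int.eq_ofNat_of_zero_le (sub_nonneg.2 (hv (show (6 : Fin 10) ≤ 7 by decide)))
  obtain ⟨a8, h18⟩ := Int.eq_ofNat_of_zero_le (sub_nonneg.2 (hv (show (7 : Fin 10) ≤ 8 by decide)))
  obtain ⟨a9, h19⟩ := Int.eq_ofNat_of_zero_le (sub_nonneg.2 (hv (show (8 : Fin 10) ≤ 9 by decide)))
  obtain ⟨t, ht⟩ := Int.eq_ofNat_of_zero_le (sub_nonneg.2 h)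
  rw [sum_ten] at h1
  have g0 : v 0 = 1 * a2 + 2 * a3 + 3 * a4 + 4 * a5 + 5 * a6 + 6 * a7 + 4 * a8 + 2 * a9 + 3 * t := by linarith
  have g1 : v 1 = v 0 + a1 := by linarith
  have g2 : v 2 = v 1 + a2 := by linarith
  have g3 : v 3 = v 2 + a3 := by linarith
  have g4 : v 4 = v 3 + a4 := by linarith
  have g5 : v 5 = v 4 + a5 := by linarith
  have g6 : v 6 = v 5 + a6 := by linarith
  have g7 : v 7 = v 6 + a7 := by linarith
  have g8 : v 8 = v 7 + a8 := by linarith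
  have g9 : v 9 = v 8 + a9 := by linarith
  have gn : n = v 7 + v 8 + v 9 + t := by linarith
  refine ⟨by omega, ?_⟩
  rw [sum_ten]
  have key : n ^ 2 - (v 0 ^ 2 + v 1 ^ 2 + v 2 ^ 2 + v 3 ^ 2 + v 4 ^ 2 + v 5 ^ 2 + v 6 ^ 2 + v 7 ^ 2 + v 8 ^ 2 + v 9 ^ 2) =
      (a1 * (2 * a2 + 4 * a3 + 6 * a4 + 8 * a5 + 10 * a6 + 12 * a7 + 8 * a8 + 4 * a9 + 6 * t) +
      a2 * (8 * a3 + 12 * a4 + 16 * a5 + 20 * a6 + 24 * a7 + 16 * a8 + 8 * a9 + 12 * t) +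
      a3 * (18 * a4 + 24 * a5 + 30 * a6 + 36 * a7 + 24 * a8 + 12 * a9 + 18 * t) +
      a4 * (32 * a5 + 40 * a6 + 48 * a7 + 32 * a8 + 16 * a9 + 24 * t) +
      a5 * (50 * a6 + 60 * a7 + 40 * a8 + 20 * a9 + 30 * t) +
      a6 * (72 * a7 + 48 * a8 + 24 * a9 + 36 * t) +
      a7 * (56 * a8 + 28 * a9 + 42 * t) +
      a8 * (18 * a9 + 28 * t) +
      a9 * (14 * t)) +
      (2 * a2 ^ 2 + 6 * a3 ^ 2 + 12 * a4 ^ 2 + 20 * a5 ^ 2 + 30 * a6 ^ 2 + 42 * a7 ^ 2 + 18 * a8 ^ 2 + 4 * a9 ^ 2 + 10 * t ^ 2 : ℤ) := by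
    rw [gn, g9, g8, g7, g6, g5, g4, g3, g2, g1, g0]
    ring
  rw [key, g0]
  have hc : (0 : ℤ) ≤ a1 * (2 * a2 + 4 * a3 + 6 * a4 + 8 * a5 + 10 * a6 + 12 * a7 + 8 * a8 + 4 * a9 + 6 * t) +
      a2 * (8 * a3 + 12 * a4 + 16 * a5 + 20 * a6 + 24 * a7 + 16 * a8 + 8 * a9 + 12 * t) +
      a3 * (18 * a4 + 24 * a5 + 30 * a6 + 36 * a7 + 24 * a8 + 12 * a9 + 18 * t) +
      a4 * (32 * a5 + 40 * a6 + 48 * a7 + 32 * a8 + 16 * a9 + 24 * t) +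
      a5 * (50 * a6 + 60 * a7 + 40 * a8 + 20 * a9 + 30 * t) +
      a6 * (72 * a7 + 48 * a8 + 24 * a9 + 36 * t) +
      a7 * (56 * a8 + 28 * a9 + 42 * t) +
      a8 * (18 * a9 + 28 * t) +
      a9 * (14 * t) := by positivity
  have hs : ∀ a : ℕ, (a : ℤ) ≤ (a : ℤ) ^ 2 := by
    intro a
    have : a ≤ a ^ 2 := Nat.le_self_pow two_ne_zero a
    exact_mod_cast this
  have s1 := hs a2
  have s2 := hs a3
  have s3 := hs a4
  have s4 := hs a5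
  have s5 := hs a6
  have s6 := hs a7
  have s7 := hs a8
  have s8 := hs a9
  have s9 := hs t
  linarith

/-- A standard vector orthogonal to the canonical class is a cubic through nine points plus a vector in the cone. -/
theorem std_case {x : Fin 10 → ℤ} {n : ℤ} (h1 : ∑ i, x i = 3 * n) (h0 : 0 < n)
    (h : ∀ i j k : Fin 10, i ≠ j → i ≠ k → j ≠ k → x i + x j + x k ≤ n) :
    3 ≤ n ∧ ∃ k, 2 * x k ≤ n ^ 2 - ∑ i, x i ^ 2 := by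
  have hm : Monotone (x ∘ Tuple.sort x) := Tuple.monotone_sort x
  have inj : ∀ i j : Fin 10, i ≠ j → Tuple.sort x i ≠ Tuple.sort x j :=
    fun i j hij hh => hij ((Tuple.sort x).injective hh)
  have e1 : ∑ i, (x ∘ Tuple.sort x) i ^ 2 = ∑ i, x i ^ 2 :=
    Equiv.sum_comp (Tuple.sort x) (fun i => x i ^ 2)
  have e2 : ∑ i, (x ∘ Tuple.sort x) i = ∑ i, x i := Equiv.sum_comp (Tuple.sort x) x
  have h2 := mono_case hm (by rw [e2, h1]) h0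
    (h _ _ _ (inj _ _ (by decide)) (inj _ _ (by decide)) (inj _ _ (by decide)))
  rw [e1] at h2
  exact ⟨h2.1, _, h2.2⟩

end Pool.Agent.V8H22.TP
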