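import Pool.Agent.V8H22.TP.B
import Pool.Agent.V8H22.TP.N

set_option autoImplicit false

/-!
# Ten general points: restriction to elliptic curves
-/

namespace Pool.Agent.V8H22.TP

open MvPolynomial Pool.Agent.W609 Pool.Agent.W609.CR Pool.Agent.TH167.SH Pool.Agent.N108.ZZ

/-- Classes which meet all `(-1)`-classes nonnegatively and with `K D ≤ 5` are not special. -/
theorem nn {K : Type} [Field K] [CharZero K] {r : ℕ} {P : Fin (r + 4) → Fin 2 → K}
    (hP : AlgebraicIndependent ℚ (fun ij : Fin (r + 4) × Fin 2 => P ij.1 ij.2)) {d : ℕ} {w : Fin (r + 4) → ℕ}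
    (h1 : -5 ≤ kk d w)
    (h2 : ∀ (e : ℕ) (u : Fin (r + 4) → ℕ), ip e u e u = -1 → kk e u = 1 → 0 ≤ ip d w e u) :
    (Module.finrank K ↥(VS (fun j => aff (P j)) w d) : ℤ) = max 0 (chi d w) := by
  by_contra hcon
  obtain ⟨F, hF, hF'⟩ := hh_full
    (Q := fun d1 w1 => ∑ j : Fin (r + 4), (if 2 ≤ w1 j then w1 j else 0) ≤ 3 * d1 + 5)
    (fun hP _ _ hred h => std_dim1 hP hred h) d w
  rcases hF' K P (evP_ne hP hF) hcon with ⟨d', w', k, C, e, u, N, hD, -, a, ha⟩ |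
    ⟨d', w', k, C, e, u, N, d1, w1, hD, hch, hred, -, -, hQ⟩
  · have q1 := hD.neg a
    have q2 := h2 (e a) (u a) (self_iff.1 (hD.exc a).self) (can_iff.1 (hD.exc a).can)
    omega
  · have hk : k = 0 := by
      rcases Nat.eq_zero_or_pos k with h | h
      · exact h
      · exfalso
        have q1 := hD.neg ⟨0, h⟩
        have q2 := h2 (e ⟨0, h⟩) (u ⟨0, h⟩) (self_iff.1 (hD.exc _).self) (can_iff.1 (hD.exc _).can)
        have q3 := hD.pos ⟨0, h⟩
        omega
    subst hk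
    have q1 := hD.kk_eq
    rw [Finset.univ_eq_empty, Finset.sum_empty, add_zero] at q1
    have q2 := (quad_inv hch).2.1
    simp only at q2
    have q4 := big_le w1
    have q5 : kk d1 w1 = 3 * (d1 : ℤ) - ((∑ j, w1 j : ℕ) : ℤ) := by
      unfold kk
      push_cast
      rfl
    simp only [not_le] at hQ
    omega

theorem kk_sm {s : ℕ} (d : ℕ) (w : Fin s → ℕ) : sm w - 3 * d = - kk d w := by
  unfold sm kk
  ring

theorem ip_sq {s : ℕ} (d : ℕ) (w : Fin s → ℕ) : (d : ℤ) ^ 2 - sq w = ip d w d w := by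
  unfold sq ip
  rw [pow_two (d : ℤ)]
  congr 1
  exact Finset.sum_congr rfl fun j _ => by ring

theorem meets_ip {d : ℕ} {w : Fin 10 → ℕ} (h : Cone d w) {e : ℕ} {u : Fin 10 → ℕ} (h1 : ip e u e u = -1)
    (h2 : kk e u = 1) : - kk d w ≤ ip d w e u := by
  rw [← kk_sm]
  exact meets h h1 (by rw [interK_eq, h2])

theorem sum_proj {d : ℕ} {w : Fin 10 → ℕ} {κ : ℤ} (hκ : κ = sm w - 3 * d) :
    ∑ l, ((w l : ℤ) - κ) = 3 * ((d : ℤ) - 3 * κ) := by
  rw [Finset.sum_sub_distrib]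
  have h1 : ∑ l, (w l : ℤ) = sm w := rfl
  rw [h1]
  have h2 : ∑ _l : Fin 10, κ = 10 * κ := by simp
  rw [h2]
  linarith

/-- The projection is timelike. -/
def Tm (d : ℕ) (w : Fin 10 → ℕ) : Prop := 0 < (d : ℤ) ^ 2 - sq w + (sm w - 3 * d) ^ 2

theorem ge_kappa {d : ℕ} {w : Fin 10 → ℕ} (h : Cone d w) (k : Fin 10) : sm w - 3 * d ≤ w k := by
  obtain ⟨c1, c2⟩ := h
  have h4 := proj d (sm w - 3 * d) w rfl
  have h5 := nonneg_of (sum_proj (d := d) (w := w) rfl) (by linarith) c1 k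
  linarith

theorem gt_kappa {d : ℕ} {w : Fin 10 → ℕ} (h : Cone d w) (ht : Tm d w) (k : Fin 10) : sm w - 3 * d < w k := by
  obtain ⟨c1, c2⟩ := h
  unfold Tm at ht
  have h4 := proj d (sm w - 3 * d) w rfl
  have h5 := pos_of (sum_proj (d := d) (w := w) rfl) (by linarith) c1 k
  linarith

theorem sum_ind {s : ℕ} (T : Finset (Fin s)) (w : Fin s → ℤ) : ∑ j, w j * (ind T j : ℤ) = ∑ j ∈ T, w j := by
  classical
  have h1 : ∀ j, w j * (ind T j : ℤ) = if j ∈ T then w j else 0 := by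
    intro j
    unfold ind
    split_ifs <;> simp
  rw [Finset.sum_congr rfl fun j _ => h1 j, Finset.sum_ite_mem, Finset.univ_inter]

theorem pair {d : ℕ} {w : Fin 10 → ℕ} (h : Cone d w) (h0 : kk d w ≤ 0) {i j : Fin 10} (hij : i ≠ j) :
    w i + w j ≤ d := by
  classical
  have hc : ({i, j} : Finset (Fin 10)).card = 2 := Finset.card_pair hij
  have h1 := ind_kk ({i, j} : Finset (Fin 10)) 1
  have h2 := two_chi 1 (ind ({i, j} : Finset (Fin 10)))
  rw [ind_chi, h1, hc] at h2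
  norm_num [Nat.choose] at h2
  have h3 := meets_ip h (e := 1) (u := ind ({i, j} : Finset (Fin 10))) (by linarith) (by rw [h1, hc]; norm_num)
  unfold ip at h3
  rw [sum_ind, Finset.sum_pair hij] at h3
  push_cast at h3
  omega

theorem ps {d : ℕ} {w : Fin 10 → ℕ} (h : Cone d w) (h0 : kk d w ≤ 0) {i : Fin 3 → Fin 10}
    (hi : Function.Injective i) : PS i d w :=
  ⟨pair h h0 (ne10 hi).symm, pair h h0 (ne20 hi).symm, pair h h0 (ne21 hi).symm⟩

end Pool.Agent.V8H22.TP
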