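import Pool.Agent.V8H22.TP.C

set_option autoImplicit false

/-!
# Ten general points: the restriction step
-/

namespace Pool.Agent.V8H22.TP

open MvPolynomial Pool.Agent.W609 Pool.Agent.W609.CR Pool.Agent.TH167.SH Pool.Agent.N108.ZZ Pool.Agent.H248R5

/-- Restriction to the cubic through nine of the ten points, for all classes in the cone. -/
theorem ell {K : Type} [Field K] [CharZero K] {P : Fin 10 → Fin 2 → K}
    (hP : AlgebraicIndependent ℚ (fun ij : Fin 10 × Fin 2 => P ij.1 ij.2)) {d : ℕ} {w : Fin 10 → ℕ}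
    (hc : Cone d w) (h1 : 1 ≤ sm w - 3 * d) {k : Fin 10} (hk : sm w - 3 * d < w k) {T : Finset (Fin 10)}
    (hTk : T = Finset.univ.erase k) :
    3 ≤ d ∧ Module.finrank K ↥(VS (fun j => aff (P j)) w d) + ∑ i ∈ T, w i ≤
      Module.finrank K ↥(VS (fun j => aff (P j)) (fun j => w j - ind T j) (d - 3)) + 3 * d := by
  classical
  have hT : T.card = 9 := by
    rw [hTk, Finset.card_erase_of_mem (Finset.mem_univ k), Finset.card_univ, Fintype.card_fin]
  have hge := ge_kappa hc
  have hw1 : ∀ i, 1 ≤ w i := by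
    intro i
    have := hge i
    omega
  have hpos : ∀ i ∈ T, 1 ≤ w i := fun i _ => hw1 i
  have hd : 3 ≤ d := by
    have := hc.1
    omega
  refine ⟨hd, ?_⟩
  have hsumk : ∀ f : Fin 10 → ℤ, ∑ i, f i = f k + ∑ i ∈ T, f i := by
    intro f
    rw [hTk]
    exact (Finset.add_sum_erase _ _ (Finset.mem_univ k)).symm
  obtain ⟨g, hg, hg0⟩ := cubic_exists P hT
  obtain ⟨wT, hwT⟩ : ∃ wT : Fin 10 → ℕ, wT = fun j => if j ∈ T then w j else 0 := ⟨_, rfl⟩
  have hwTle : ∀ j, wT j ≤ w j := by
    intro j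
    rw [hwT]
    simp only
    split_ifs
    · exact le_rfl
    · exact Nat.zero_le _
  have hkT : k ∉ T := by
    rw [hTk]
    exact Finset.notMem_erase k _
  have hwTT : ∀ i ∈ T, wT i = w i := by
    intro i hi
    rw [hwT]
    simp only
    rw [if_pos hi]
  have hwTk : wT k = 0 := by
    rw [hwT]
    simp only
    rw [if_neg hkT]
  have hposT : ∀ i ∈ T, 1 ≤ wT i := by
    intro i hi
    rw [hwTT i hi]
    exact hw1 i
  have hipT : ∀ (e : ℕ) (u : Fin 10 → ℕ), ip d wT e u = ip d w e u + w k * u k := by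
    intro e u
    unfold ip
    rw [hsumk, hsumk, hwTk]
    have : ∑ i ∈ T, (wT i : ℤ) * u i = ∑ i ∈ T, (w i : ℤ) * u i :=
      Finset.sum_congr rfl fun i hi => by rw [hwTT i hi]
    rw [this]
    push_cast
    ring
  have hkkT : kk d wT = kk d w + w k := by
    unfold kk
    rw [hsumk, hsumk, hwTk]
    have : ∑ i ∈ T, (wT i : ℤ) = ∑ i ∈ T, (w i : ℤ) :=
      Finset.sum_congr rfl fun i hi => by rw [hwTT i hi]
    rw [this]
    push_cast
    ring
  rw [kk_sm] at h1 hk
  have n1 := nn (r := 6) hP (d := d) (w := wT) (by rw [hkkT]; omega) (by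
    intro e u hu1 hu2
    rw [hipT]
    have q1 := meets_ip hc hu1 hu2
    have q2 : (0 : ℤ) ≤ w k * u k := by positivity
    omega)
  have hkk' := sub_kk hd hposT hT
  have hchi' := sub_chi hd hposT hT
  have hfun : (fun j => wT j - ind T j) = fun j => wT j - 1 := by
    funext j
    by_cases hj : j ∈ T
    · unfold ind
      rw [if_pos hj]
    · have hjk : j = k := by
        by_contra hne
        exact hj (by rw [hTk]; exact Finset.mem_erase.2 ⟨hne, Finset.mem_univ _⟩)
      rw [hjk, hwTk, Nat.zero_sub, Nat.zero_sub]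
  have n2 := nn (r := 6) hP (d := d - 3) (w := fun j => wT j - ind T j) (by rw [hkk', hkkT]; omega) (by
    intro e u hu1 hu2
    rw [sub_ip hd hposT, hipT]
    have q1 := meets_ip hc hu1 hu2
    have q2 : (0 : ℤ) ≤ ((w k : ℤ) - 1) * u k := by
      have := hw1 k
      exact mul_nonneg (by omega) (by positivity)
    have q3 : 3 * (e : ℤ) - (u k + ∑ i ∈ T, (u i : ℤ)) = 1 := by
      rw [← hsumk (fun i => (u i : ℤ))]
      exact hu2
    nlinarith)
  rw [hfun] at n2 hchi'
  have hsT : ∑ i ∈ T, (wT i : ℤ) = ((∑ i ∈ T, w i : ℕ) : ℤ) := by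
    push_cast
    exact Finset.sum_congr rfl fun i hi => by rw [hwTT i hi]
  rw [hsT] at hchi'
  have hTsum : kk d wT = 3 * (d : ℤ) - ((∑ i ∈ T, w i : ℕ) : ℤ) := by
    unfold kk
    rw [hsumk, hwTk, hsT]
    push_cast
    ring
  have hfA := vs_fin (fun j => aff (P j)) w d
  have hfB := vs_fin (fun j => aff (P j)) wT d
  have hfC := vs_fin (fun j => aff (P j)) (fun j => wT j - 1) (d - 3)
  have hfD := vs_fin (fun j => aff (P j)) (fun j => w j - ind T j) (d - 3)
  have hinj : Function.Injective (LinearMap.mulLeft K g) := by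
    intro a b hab
    rw [LinearMap.mulLeft_apply, LinearMap.mulLeft_apply] at hab
    exact mul_left_cancel₀ hg0 hab
  obtain ⟨G, hG⟩ : ∃ G, G = (VS (fun j => aff (P j)) (fun j => wT j - 1) (d - 3)).map
    (LinearMap.mulLeft K g) := ⟨_, rfl⟩
  have hGf : Module.finrank K ↥G =
      Module.finrank K ↥(VS (fun j => aff (P j)) (fun j => wT j - 1) (d - 3)) := by
    rw [hG]
    exact (LinearEquiv.finrank_eq (Submodule.equivMapOfInjective _ hinj _)).symm
  have hGfin : Module.Finite K ↥G := by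
    rw [hG]
    exact Module.Finite.map _ _
  rw [mem_VS] at hg
  have hAB : VS (fun j => aff (P j)) w d ≤ VS (fun j => aff (P j)) wT d := by
    intro f hf
    rw [mem_VS] at hf ⊢
    exact ⟨hf.1, fun j => van_mono (hwTle j) (hf.2 j)⟩
  have hGB : G ≤ VS (fun j => aff (P j)) wT d := by
    rw [hG]
    rintro _ ⟨h, hh, rfl⟩
    rw [SetLike.mem_coe, mem_VS] at hh
    rw [mem_VS, LinearMap.mulLeft_apply]
    refine ⟨?_, fun j => ?_⟩
    · have := hg.1.mul hh.1
      rwa [show 3 + (d - 3) = d by omega] at this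
    · by_cases hj : j ∈ T
      · have h1 := van_mul (hg.2 j) (hh.2 j)
        refine van_mono ?_ h1
        unfold ind
        rw [if_pos hj]
        omega
      · rw [hwT]
        simp only
        rw [if_neg hj]
        exact van_zero _ _
  have hAG : VS (fun j => aff (P j)) w d ⊓ G ≤
      (VS (fun j => aff (P j)) (fun j => w j - ind T j) (d - 3)).map (LinearMap.mulLeft K g) := by
    rintro f ⟨hfA', hfG⟩
    rw [hG] at hfG
    obtain ⟨h, hh, rfl⟩ := hfG
    refine ⟨h, ?_, rfl⟩
    rw [SetLike.mem_coe, mem_VS] at hh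
    have hfA2 : g * h ∈ VS (fun j => aff (P j)) w d := hfA'
    rw [mem_VS] at hfA2
    rw [SetLike.mem_coe, mem_VS]
    refine ⟨hh.1, fun j => ?_⟩
    by_cases hj : j ∈ T
    · have h1 := hh.2 j
      rw [hwT] at h1
      simp only [if_pos hj] at h1
      unfold ind
      rw [if_pos hj]
      exact h1
    · have h1 : Ord (aff (P j)) 0 g := by
        refine ⟨van_zero _ _, fun h2 => ?_⟩
        exact cubic_ne (r := 6) hP hT ((mem_VS _ _ _ _).2 hg) hg0 hj ((van_one _ _).1 (by simpa using h2))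
      refine van_of_mul h1 ?_
      unfold ind
      rw [if_neg hj, zero_add, Nat.sub_zero]
      exact hfA2.2 j
  have e1 := Submodule.finrank_sup_add_finrank_inf_eq (VS (fun j => aff (P j)) w d) G
  have e2 : Module.finrank K ↥(VS (fun j => aff (P j)) w d ⊔ G) ≤
      Module.finrank K ↥(VS (fun j => aff (P j)) wT d) := Submodule.finrank_mono (sup_le hAB hGB)
  have e3 := Submodule.finrank_mono hAG
  have e4 := Submodule.finrank_map_le (LinearMap.mulLeft K g)
    (VS (fun j => aff (P j)) (fun j => w j - ind T j) (d - 3))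
  have hpos' : 1 ≤ kk d wT := by
    rw [hkkT]
    omega
  rw [hTsum] at hpos'
  have m1 : (Module.finrank K ↥(VS (fun j => aff (P j)) wT d) : ℤ) ≤
      (Module.finrank K ↥(VS (fun j => aff (P j)) (fun j => wT j - 1) (d - 3)) : ℤ) +
        (3 * (d : ℤ) - ((∑ i ∈ T, w i : ℕ) : ℤ)) := by
    rw [n1, n2, hchi']
    rcases le_total 0 (chi d wT) with c1 | c1
    · rw [max_eq_right c1]
      have := le_max_right (0 : ℤ) (chi d wT - 3 * (d : ℤ) + ((∑ i ∈ T, w i : ℕ) : ℤ))
      linarith
    · rw [max_eq_left c1]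
      have := le_max_left (0 : ℤ) (chi d wT - 3 * (d : ℤ) + ((∑ i ∈ T, w i : ℕ) : ℤ))
      linarith
  omega

/-- The linear system has the dimension `χ - 1` and no superabundance for generic points. -/
def G (d : ℕ) (w : Fin 10 → ℕ) : Prop :=
  ∀ (K : Type) [Field K] [CharZero K] (P : Fin 10 → Fin 2 → K),
    AlgebraicIndependent ℚ (fun ij : Fin 10 × Fin 2 => P ij.1 ij.2) →
      (Module.finrank K ↥(VS (fun j => aff (P j)) w d) : ℤ) = chi d w

theorem G_step {d : ℕ} {w : Fin 10 → ℕ} (hc : Cone d w) (h1 : 1 ≤ sm w - 3 * d) {k : Fin 10}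
    (hk : sm w - 3 * d < w k) (h : G (d - 3) (fun j => w j - ind (Finset.univ.erase k) j)) : G d w := by
  intro K _ _ P hP
  obtain ⟨h3, h4⟩ := ell hP hc h1 hk rfl
  have h5 := h K P hP
  have hT : (Finset.univ.erase k).card = 9 := by
    rw [Finset.card_erase_of_mem (Finset.mem_univ k), Finset.card_univ, Fintype.card_fin]
  have hw1 : ∀ i ∈ Finset.univ.erase k, 1 ≤ w i := by
    intro i _
    have := ge_kappa hc i
    omega
  have h6 := sub_chi h3 hw1 hT
  have h7 := chi_le_dim P d w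
  have h8 : ∑ i ∈ Finset.univ.erase k, (w i : ℤ) = ((∑ i ∈ Finset.univ.erase k, w i : ℕ) : ℤ) := by
    push_cast
    rfl
  rw [h8] at h6
  omega

theorem G_cr {d : ℕ} {w : Fin 10 → ℕ} {i : Fin 3 → Fin 10} (hi : Function.Injective i) (p : PS i d w)
    (h : G (cd i d w) (wcr d i w)) : G d w := by
  intro K _ _ P hP
  obtain ⟨P', hP', hr⟩ := exists_crel hP hi
  have h1 := h K P' hP'
  have h2 := (quad_inv (Relation.ReflTransGen.single
    (⟨i, hi, p, rfl⟩ : Quad (d, w) (cd i d w, wcr d i w)))).1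
  simp only at h2
  rw [hr.dim p, h2] at h1
  exact h1

theorem G_cr' {d : ℕ} {w : Fin 10 → ℕ} {i : Fin 3 → Fin 10} (hi : Function.Injective i) (p : PS i d w)
    (h : G d w) : G (cd i d w) (wcr d i w) := by
  apply G_cr hi (p.cr hi)
  rw [cd_cr hi p, wcr_cr hi p]
  exact h

end Pool.Agent.V8H22.TP
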