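import Pool.Agent.V8H22.TP.D

set_option autoImplicit false

/-!
# Ten general points: the forward light cone of a nonspecial class
-/

namespace Pool.Agent.V8H22.TP

open MvPolynomial Pool.Agent.W609 Pool.Agent.W609.CR Pool.Agent.TH167.SH Pool.Agent.N108.ZZ

theorem cone_add {d d0 : ℕ} {w w0 : Fin 10 → ℕ} {n : ℤ} (hn : 0 ≤ n) (hd : (d : ℤ) = d0 + n)
    (hk : kk d w = kk d0 w0) (hc : Cone d0 w0) (ht : Tm d0 w0)
    (hu : ∑ i, ((w i : ℤ) - w0 i) ^ 2 ≤ n ^ 2) : Cone d w ∧ Tm d w := by
  have hk' : sm w - 3 * (d : ℤ) = sm w0 - 3 * d0 := by rw [kk_sm, kk_sm, hk]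
  have p1 := proj d (sm w - 3 * d) w rfl
  have p2 := proj d0 (sm w0 - 3 * d0) w0 rfl
  unfold Cone Tm at *
  rw [hk'] at p1 ⊢
  obtain ⟨c1, c2⟩ := hc
  obtain ⟨κ, hκ⟩ : ∃ κ : ℤ, κ = sm w0 - 3 * d0 := ⟨_, rfl⟩
  rw [← hκ] at p1 p2 c1 c2 ht ⊢
  have h1 : ∑ l, ((w l : ℤ) - κ) ^ 2 = ∑ l, ((w0 l : ℤ) - κ) ^ 2 +
      2 * ∑ l, ((w0 l : ℤ) - κ) * ((w l : ℤ) - w0 l) + ∑ l, ((w l : ℤ) - w0 l) ^ 2 := by
    rw [Finset.mul_sum, ← Finset.sum_add_distrib, ← Finset.sum_add_distrib]
    exact Finset.sum_congr rfl fun l _ => by ring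
  have h2 := Finset.sum_mul_sq_le_sq_mul_sq Finset.univ (fun l => (w0 l : ℤ) - κ)
    (fun l => (w l : ℤ) - w0 l)
  have h3 : (∑ l, ((w0 l : ℤ) - κ) * ((w l : ℤ) - w0 l)) ^ 2 ≤ (((d0 : ℤ) - 3 * κ) * n) ^ 2 := by
    rw [mul_pow]
    refine h2.trans (mul_le_mul ?_ hu (Finset.sum_nonneg fun _ _ => sq_nonneg _) (sq_nonneg _))
    linarith
  have h4 := (abs_le.1 (abs_le_of_sq_le_sq h3 (mul_nonneg c1 hn))).2
  have h5 : 0 < (d : ℤ) ^ 2 - sq w + κ ^ 2 := by
    rw [← p1, h1, hd]
    nlinarith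
  exact ⟨⟨by rw [hd]; linarith, h5.le⟩, h5⟩

theorem u_sum {d d0 : ℕ} {w w0 : Fin 10 → ℕ} {n : ℤ} (hd : (d : ℤ) = d0 + n)
    (hk : kk d w = kk d0 w0) : ∑ i, ((w i : ℤ) - w0 i) = 3 * n := by
  unfold kk at hk
  rw [Finset.sum_sub_distrib]
  linarith

/-- **The forward light cone of a nonspecial effective class consists of nonspecial classes.** -/
theorem absorb : ∀ (n : ℕ) (d d0 : ℕ) (w w0 : Fin 10 → ℕ), (d : ℤ) = d0 + n → kk d w = kk d0 w0 →
    kk d0 w0 ≤ -1 → Cone d0 w0 → Tm d0 w0 → ∑ i, ((w i : ℤ) - w0 i) ^ 2 ≤ (n : ℤ) ^ 2 → G d0 w0 → G d w := by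
  intro n
  induction n using Nat.strong_induction_on with
  | _ n ih =>
    intro d d0 w w0 hd hk hk1 hc ht hu hG
    have hnn : (0 : ℤ) ≤ n := Int.natCast_nonneg n
    rcases Nat.eq_zero_or_pos n with hn | hn
    · subst hn
      have h1 : ∀ i, ((w i : ℤ) - w0 i) ^ 2 = 0 := by
        intro i
        have h2 := Finset.single_le_sum (f := fun i => ((w i : ℤ) - w0 i) ^ 2) (fun _ _ => sq_nonneg _)
          (Finset.mem_univ i)
        have h3 := sq_nonneg ((w i : ℤ) - w0 i)
        norm_num at hu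
        linarith
      have h4 : w = w0 := by
        funext i
        have h5 := pow_eq_zero_iff (two_ne_zero) |>.1 (h1 i)
        omega
      have h6 : d = d0 := by
        push_cast at hd
        omega
      rw [h4, h6]
      exact hG
    · obtain ⟨hcD, htD⟩ := cone_add hnn hd hk hc ht hu
      have hsum := u_sum hd hk
      by_cases hstd : ∀ i j k : Fin 10, i ≠ j → i ≠ k → j ≠ k →
          ((w i : ℤ) - w0 i) + ((w j : ℤ) - w0 j) + ((w k : ℤ) - w0 k) ≤ n
      · -- restriction to a cubic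
        obtain ⟨h3, k, hk2⟩ := std_case (x := fun i => (w i : ℤ) - w0 i) hsum (by exact_mod_cast hn) hstd
        have hT : (Finset.univ.erase k).card = 9 := by
          rw [Finset.card_erase_of_mem (Finset.mem_univ k), Finset.card_univ, Fintype.card_fin]
        have hd3 : 3 ≤ d := by omega
        have hn3 : 3 ≤ n := by exact_mod_cast h3
        have hk1' : 1 ≤ sm w - 3 * (d : ℤ) := by
          rw [kk_sm, hk]
          omega
        have hw1 : ∀ i ∈ Finset.univ.erase k, 1 ≤ w i := by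
          intro i _
          have := ge_kappa hcD i
          omega
        refine G_step hcD hk1' (gt_kappa hcD htD k) ?_
        have hsub : ∀ j, ((w j - ind (Finset.univ.erase k) j : ℕ) : ℤ) = (w j : ℤ) - ind (Finset.univ.erase k) j := by
          intro j
          have := ge_kappa hcD j
          unfold ind
          split_ifs <;> omega
        refine ih (n - 3) (by omega) (d - 3) d0 _ w0 (by omega) ?_ hk1 hc ht ?_ hG
        · rw [sub_kk hd3 hw1 hT, hk]
        · have e1 : ∀ j, (((w j - ind (Finset.univ.erase k) j : ℕ) : ℤ) - w0 j) ^ 2 =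
              ((w j : ℤ) - w0 j) ^ 2 - 2 * (((w j : ℤ) - w0 j) * (ind (Finset.univ.erase k) j : ℤ)) +
                (1 * (ind (Finset.univ.erase k) j : ℤ)) := by
            intro j
            rw [hsub j]
            have : (ind (Finset.univ.erase k) j : ℤ) * ind (Finset.univ.erase k) j =
                ind (Finset.univ.erase k) j := by
              unfold ind
              split_ifs <;> norm_num
            linear_combination this
          have e4 : ∑ _i ∈ Finset.univ.erase k, (1 : ℤ) = 9 := by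
            rw [Finset.sum_const, hT]
            norm_num
          rw [Finset.sum_congr rfl fun j _ => e1 j, Finset.sum_add_distrib, Finset.sum_sub_distrib,
            ← Finset.mul_sum, sum_ind, sum_ind (Finset.univ.erase k) (fun _ => 1), e4]
          have e2 := Finset.add_sum_erase Finset.univ (fun i => (w i : ℤ) - w0 i) (Finset.mem_univ k)
          rw [hsum] at e2
          have e3 : ((n - 3 : ℕ) : ℤ) = (n : ℤ) - 3 := by omega
          rw [e3]
          nlinarith
      · -- a quadratic transformation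
        push Not at hstd
        obtain ⟨i, j, k, hij, hik, hjk, hlt⟩ := hstd
        obtain ⟨ι, hι⟩ : ∃ ι : Fin 3 → Fin 10, ι = ![i, j, k] := ⟨_, rfl⟩
        have hi : Function.Injective ι := by rw [hι]; exact inj_cons hij hik hjk
        have i0 : ι 0 = i := by rw [hι]; rfl
        have i1 : ι 1 = j := by rw [hι]; rfl
        have i2 : ι 2 = k := by rw [hι]; rfl
        have p : PS ι d w := ps hcD (by omega) hi
        have p0 : PS ι d0 w0 := ps hc (by omega) hi
        have h3s := three_sum (x := fun i => (w i : ℤ) - w0 i) hu hnn hij hik hjk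
        have hdl : dl ι d w - dl ι d0 w0 =
            n - (((w i : ℤ) - w0 i) + ((w j : ℤ) - w0 j) + ((w k : ℤ) - w0 k)) := by
          unfold dl
          rw [i0, i1, i2, hd]
          ring
        obtain ⟨Δ, hΔ⟩ : ∃ Δ : ℤ, Δ = dl ι d w - dl ι d0 w0 := ⟨_, rfl⟩
        rw [← hΔ] at hdl
        obtain ⟨n1, hn1⟩ : ∃ n1 : ℕ, (n1 : ℤ) = n + Δ := ⟨(n + Δ).toNat, by omega⟩
        have hq : Relation.ReflTransGen Quad (cd ι d0 w0, wcr d0 ι w0) (d0, w0) := by
          refine Relation.ReflTransGen.single ⟨ι, hi, p0.cr hi, ?_⟩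
          rw [cd_cr hi p0, wcr_cr hi p0]
        have hc1 : Cone (cd ι d0 w0) (wcr d0 ι w0) := cone_chain (chain_conv hq) hc
        have hkc0 := kk_cr hi p0
        have ht1 : Tm (cd ι d0 w0) (wcr d0 ι w0) := by
          unfold Tm at ht ⊢
          rw [ip_sq, kk_sm, ip_cr hi p0 p0, kk_cr hi p0]
          rw [ip_sq, kk_sm] at ht
          exact ht
        refine G_cr hi p (ih n1 (by omega) (cd ι d w) (cd ι d0 w0) _ _ ?_ ?_ ?_ hc1 ht1 ?_
          (G_cr' hi p0 hG))
        · rw [cd_cast p, cd_cast p0, hn1, hΔ, hd]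
          ring
        · rw [kk_cr hi p, kk_cr hi p0, hk]
        · rw [kk_cr hi p0]
          exact hk1
        · have e1 : ∀ l, ((wcr d ι w l : ℤ) - wcr d0 ι w0 l) ^ 2 = ((w l : ℤ) - w0 l) ^ 2 +
              ic ι l * (2 * Δ * ((w l : ℤ) - w0 l) + Δ ^ 2) := by
            intro l
            rw [wcr_cast hi p, wcr_cast hi p0]
            have h5 := ic_sq ι l
            have h6 : (w l : ℤ) + dl ι d w * ic ι l - (w0 l + dl ι d0 w0 * ic ι l) =
                ((w l : ℤ) - w0 l) + Δ * ic ι l := by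
              rw [hΔ]
              ring
            rw [h6]
            linear_combination Δ ^ 2 * h5
          rw [Finset.sum_congr rfl fun l _ => e1 l, Finset.sum_add_distrib,
            sum_ic hi (fun l => 2 * Δ * ((w l : ℤ) - w0 l) + Δ ^ 2), i0, i1, i2, hn1]
          nlinarith

end Pool.Agent.V8H22.TP
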