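import Pool.Agent.V8H22.TP.E
import Pool.Agent.TH885.NW.Exp2

set_option autoImplicit false

/-!
# Ten general points: near-uniform classes
-/

namespace Pool.Agent.V8H22.TP

open MvPolynomial Pool.Agent.W609 Pool.Agent.W609.CR Pool.Agent.TH167.SH Pool.Agent.N108.ZZ

/-- `Σ w ^ 2` for a vector with the entries `b` and `b + 1`. -/
theorem near_sq {b : ℕ} {w : Fin 10 → ℕ} (hb : ∀ i, w i = b ∨ w i = b + 1) :
    sq w = (2 * b + 1) * sm w - 10 * (b * (b + 1)) := by
  unfold sq sm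
  have h1 : ∀ i, (w i : ℤ) ^ 2 = (2 * b + 1) * w i - (b * (b + 1) : ℤ) := by
    intro i
    rcases hb i with h | h
    · rw [h]
      ring
    · rw [h]
      push_cast
      ring
  rw [Finset.sum_congr rfl fun i _ => h1 i, Finset.sum_sub_distrib, ← Finset.mul_sum]
  simp

theorem near_le {b : ℕ} {w : Fin 10 → ℕ} (hb : ∀ i, w i = b ∨ w i = b + 1) :
    10 * sq w ≤ sm w ^ 2 + 25 := by
  rw [near_sq hb]
  nlinarith [sq_nonneg (sm w - 5 * (2 * (b : ℤ) + 1))]

theorem expDim_of {K : Type} [Field K] [CharZero K] {P : Fin 10 → Fin 2 → K} {d : ℕ} {w : Fin 10 → ℕ}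
    (h : Pool.Agent.H932R3.ExpDim K w P d) :
    (Module.finrank K ↥(VS (fun j => aff (P j)) w d) : ℤ) = max 0 (chi d w) := by
  unfold Pool.Agent.H932R3.ExpDim at h
  rw [← sys_eq]
  unfold Pool.Agent.TH167.SHDefs.sys Pool.Agent.TH167.SHDefs.pt
  rw [h]
  unfold chi
  have h1 : (∑ j, ((w j + 1).choose 2 : ℤ)) = ((∑ j, (w j + 1).choose 2 : ℕ) : ℤ) := by
    push_cast
    rfl
  rw [h1]
  omega

/-- A bound for the degree. -/
theorem deg_bound {d κ : ℤ} (hd : 0 ≤ d) (hκ : 1 ≤ κ) (h : (3 * d + κ + 10) ^ 2 < 10 * (d + 3) ^ 2) :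
    6 ≤ d - 3 * κ := by
  by_contra hcon
  push Not at hcon
  rcases lt_or_ge d 7 with h7 | h7
  · have h1 : (3 * d + 11) ^ 2 ≤ (3 * d + κ + 10) ^ 2 := by
      apply pow_le_pow_left₀ <;> linarith
    interval_cases d <;> norm_num at h h1 ⊢ <;> nlinarith
  · have h1 : (10 * d + 25) ≤ 3 * (3 * d + κ + 10) := by linarith
    have h2 : (10 * d + 25) ^ 2 ≤ (3 * (3 * d + κ + 10)) ^ 2 := pow_le_pow_left₀ (by linarith) h1 2
    nlinarith

/-- The near-uniform nonspecial classes. -/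
theorem base {d b : ℕ} {w : Fin 10 → ℕ} (hb : ∀ i, w i = b ∨ w i = b + 1)
    (h : (sm w + 10) ^ 2 < 10 * ((d : ℤ) + 3) ^ 2) (hκ : kk d w ≤ -1) : Cone d w ∧ Tm d w ∧ G d w := by
  have hd0 : (0 : ℤ) ≤ d := Int.natCast_nonneg d
  obtain ⟨κ, hk⟩ : ∃ κ : ℤ, κ = sm w - 3 * d := ⟨_, rfl⟩
  have hk1 : 1 ≤ κ := by
    rw [hk, kk_sm]
    omega
  have hsm : sm w = 3 * d + κ := by rw [hk]; ring
  have hq := near_le hb
  rw [hsm] at h hq
  have h6 := deg_bound hd0 hk1 h
  have hT : 0 < (d : ℤ) ^ 2 - sq w + κ ^ 2 := by nlinarith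
  refine ⟨⟨?_, ?_⟩, ?_, ?_⟩
  · rw [← hk]
    linarith
  · rw [← hk]
    exact hT.le
  · unfold Tm
    rw [← hk]
    exact hT
  · have hchi : 0 ≤ chi d w := by
      have h1 := two_chi d w
      rw [← ip_sq] at h1
      have h2 : kk d w = -κ := by
        have := kk_sm d w
        rw [← hk] at this
        linarith
      rw [h2] at h1
      nlinarith
    intro K _ _ P hP
    obtain ⟨F, hF, hF'⟩ := Pool.Agent.TH885.NW.exp_cut2 (n := 10) le_rfl w
    have h1 := hF' P (by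
      have := evP_ne hP hF
      rwa [evP_apply] at this) d (Or.inr (Or.inr ⟨b, ?_, Or.inl ?_⟩))
    · rw [expDim_of h1, max_eq_right hchi]
    · intro i
      rcases hb i with h | h <;> omega
    · have h2 : ∀ i, max (w i) b = w i := by
        intro i
        rcases hb i with h | h <;> omega
      have h3 : (∑ i, ((max (w i) b : ℕ) : ℝ)) = ((3 * d + κ : ℤ) : ℝ) := by
        simp only [h2]
        rw [← hsm]
        unfold sm
        push_cast
        rfl
      rw [h3]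
      have h4 : (((3 * d + κ + 10 : ℤ) : ℝ)) ^ 2 < 10 * ((d : ℝ) + 3) ^ 2 := by exact_mod_cast h
      have h5 : (0 : ℝ) ≤ √((10 : ℕ) : ℝ) * ((d : ℝ) + 3) := by positivity
      have h7 : (√((10 : ℕ) : ℝ) * ((d : ℝ) + 3)) ^ 2 = 10 * ((d : ℝ) + 3) ^ 2 := by
        rw [mul_pow, Real.sq_sqrt (by positivity)]
        norm_num
      rw [← h7] at h4
      have h8 := lt_of_pow_lt_pow_left₀ 2 h5 h4
      push_cast at h8 ⊢
      linarith

end Pool.Agent.V8H22.TP
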