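import Pool.Agent.V8H22.TP.F

set_option autoImplicit false

/-!
# Ten general points: the Harbourne-Hirschowitz conjecture for most classes
-/

namespace Pool.Agent.V8H22.TP

open MvPolynomial Pool.Agent.W609 Pool.Agent.W609.CR Pool.Agent.TH167.SH Pool.Agent.N108.ZZ

/-- The near-uniform vectors with a given sum. -/
def pat (S : ℕ) (c i : Fin 10) : ℕ := S / 10 + if (i + c : Fin 10).val < S % 10 then 1 else 0

theorem pat_near (S : ℕ) (c i : Fin 10) : pat S c i = S / 10 ∨ pat S c i = S / 10 + 1 := by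
  unfold pat
  split_ifs
  · exact Or.inr rfl
  · exact Or.inl rfl

theorem count_lt (r : ℕ) (hr : r < 10) : ∑ i : Fin 10, (if i.val < r then 1 else 0) = r := by
  interval_cases r <;> decide

theorem pat_sum (S : ℕ) (c : Fin 10) : ∑ i, pat S c i = S := by
  unfold pat
  have h1 : ∑ i : Fin 10, (if (i + c : Fin 10).val < S % 10 then 1 else 0) =
      ∑ i : Fin 10, (if i.val < S % 10 then 1 else 0) :=
    Equiv.sum_comp (Equiv.addRight c) (fun i : Fin 10 => if i.val < S % 10 then 1 else 0)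
  rw [Finset.sum_add_distrib, h1, count_lt _ (Nat.mod_lt _ (by norm_num)), Finset.sum_const,
    Finset.card_univ, Fintype.card_fin, smul_eq_mul]
  omega

theorem pat_sum' (S : ℕ) (i : Fin 10) : ∑ c, pat S c i = S := by
  unfold pat
  have h1 : ∑ c : Fin 10, (if (i + c : Fin 10).val < S % 10 then 1 else 0) =
      ∑ i : Fin 10, (if i.val < S % 10 then 1 else 0) :=
    Equiv.sum_comp (Equiv.addLeft i) (fun i : Fin 10 => if i.val < S % 10 then 1 else 0)
  rw [Finset.sum_add_distrib, h1, count_lt _ (Nat.mod_lt _ (by norm_num)), Finset.sum_const,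
    Finset.card_univ, Fintype.card_fin, smul_eq_mul]
  omega

theorem pat_sm (S : ℕ) (c : Fin 10) : sm (pat S c) = S := by
  unfold sm
  have := pat_sum S c
  exact_mod_cast this

theorem pat_sq (S : ℕ) (c : Fin 10) : 10 * sq (pat S c) ≤ (S : ℤ) ^ 2 + 25 := by
  have := near_le (pat_near S c)
  rwa [pat_sm] at this

theorem pat_dist (w : Fin 10 → ℕ) (S : ℕ) (c : Fin 10) : ∑ i, ((w i : ℤ) - pat S c i) ^ 2 =
    sq w - 2 * ∑ i, ((w i : ℤ) * pat S c i) + sq (pat S c) := by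
  have e1 : ∀ i, ((w i : ℤ) - pat S c i) ^ 2 = (w i : ℤ) ^ 2 - 2 * ((w i : ℤ) * pat S c i) + (pat S c i : ℤ) ^ 2 :=
    fun i => by ring
  rw [Finset.sum_congr rfl fun i _ => e1 i, Finset.sum_add_distrib, Finset.sum_sub_distrib, ← Finset.mul_sum]
  rfl

theorem pat_cross (w : Fin 10 → ℕ) (S : ℕ) : ∑ c, ∑ i, ((w i : ℤ) * pat S c i) = sm w * S := by
  rw [Finset.sum_comm]
  have e3 : ∀ i, ∑ c, ((w i : ℤ) * pat S c i) = (w i : ℤ) * S := by
    intro i
    rw [← Finset.mul_sum]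
    have h1 : ∑ c, (pat S c i : ℤ) = S := by
      have := pat_sum' S i
      exact_mod_cast this
    rw [h1]
  rw [Finset.sum_congr rfl fun i _ => e3 i, ← Finset.sum_mul]
  rfl

theorem const_sum (x : ℤ) : ∑ _c : Fin 10, x = 10 * x := by
  rw [Finset.sum_const, Finset.card_univ, Fintype.card_fin, nsmul_eq_mul]
  norm_num

/-- One of the near-uniform vectors with the sum `S` is close to `w`. -/
theorem exists_near (w : Fin 10 → ℕ) (S : ℕ) : ∃ w0 : Fin 10 → ℕ, (∀ i, w0 i = S / 10 ∨ w0 i = S / 10 + 1) ∧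
    sm w0 = S ∧ 10 * ∑ i, ((w i : ℤ) - w0 i) ^ 2 ≤ 10 * sq w - 2 * sm w * S + (S : ℤ) ^ 2 + 25 := by
  have h1 : ∑ c, 10 * ∑ i, ((w i : ℤ) - pat S c i) ^ 2 ≤
      ∑ _c : Fin 10, (10 * sq w - 2 * sm w * S + (S : ℤ) ^ 2 + 25) := by
    rw [← Finset.mul_sum, Finset.sum_congr rfl fun c _ => pat_dist w S c, Finset.sum_add_distrib,
      Finset.sum_sub_distrib, ← Finset.mul_sum, pat_cross, const_sum, const_sum]
    have e5 : ∑ c, 10 * sq (pat S c) ≤ ∑ _c : Fin 10, ((S : ℤ) ^ 2 + 25) :=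
      Finset.sum_le_sum fun c _ => pat_sq S c
    rw [← Finset.mul_sum, const_sum] at e5
    linarith
  obtain ⟨c, -, hc⟩ := Finset.exists_le_of_sum_le ⟨0, Finset.mem_univ 0⟩ h1
  exact ⟨pat S c, pat_near S c, pat_sm S c, hc⟩

/-- The nonspecial region. -/
theorem region {d : ℕ} {w : Fin 10 → ℕ} {t : ℕ} (h1 : 1 ≤ sm w - 3 * d) (h2 : (t : ℤ) ≤ d - 3 * (sm w - 3 * d))
    (h3 : 10 * (sm w - 3 * d + 1) ^ 2 < (t : ℤ) ^ 2)
    (h4 : 2 * (d - 3 * (sm w - 3 * d)) * t + 25 ≤ 10 * ((d : ℤ) ^ 2 - sq w + (sm w - 3 * d) ^ 2) + t ^ 2) :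
    G d w := by
  obtain ⟨κ, hκ⟩ : ∃ κ : ℕ, (κ : ℤ) = sm w - 3 * d := ⟨(sm w - 3 * d).toNat, by omega⟩
  rw [← hκ] at h1 h2 h3 h4
  have hsm : sm w = 3 * d + κ := by rw [hκ]; ring
  obtain ⟨w0, hb, hs, hw⟩ := exists_near w (3 * t + 10 * κ)
  have hd : (d : ℤ) = ((t + 3 * κ : ℕ) : ℤ) + ((d - (t + 3 * κ) : ℕ) : ℤ) := by omega
  have hk0 : kk (t + 3 * κ) w0 = -κ := by
    have := kk_sm (t + 3 * κ) w0
    rw [hs] at this
    push_cast at this ⊢
    linarith
  have hk : kk d w = kk (t + 3 * κ) w0 := by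
    rw [hk0]
    have := kk_sm d w
    rw [← hκ] at this
    linarith
  obtain ⟨c1, c2, c3⟩ := base (d := t + 3 * κ) hb (by
    rw [hs]
    push_cast
    nlinarith) (by rw [hk0]; omega)
  refine absorb (d - (t + 3 * κ)) d (t + 3 * κ) w w0 hd hk (by rw [hk0]; omega) c1 c2 ?_ c3
  have hn : ((d - (t + 3 * κ) : ℕ) : ℤ) = d - (t + 3 * κ) := by
    rw [hd]
    push_cast
    ring_nf
  rw [hn]
  rw [hsm] at hw
  push_cast at hw
  nlinarith

end Pool.Agent.V8H22.TP
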